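import Pool.Agent.SGK.Stmts

/-!
# Squad SGK, row C3A: counting in rightmost sequences
-/

noncomputable section

namespace Pool.Agent.SGK.H40

open Pool.Agent.SGE Pool.Agent.SGK

variable {V : Type}

theorem isL_cons {S : List (V × List V)} {v p u : V} {l : List V} :
    IsL ((v, p :: l) :: S) u ↔ u = p ∨ IsL S u := by
  constructor
  · rintro ⟨x, hx, h⟩
    rcases List.mem_cons.1 hx with rfl | hx
    · left
      exact (Option.some.inj h).symm
    · exact Or.inr ⟨x, hx, h⟩
  · rintro (rfl | ⟨x, hx, h⟩)
    · exact ⟨_, List.mem_cons_self, rfl⟩
    · exact ⟨x, List.mem_cons_of_mem _ hx, h⟩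

theorem getLast_aux {p q : V} {mid : List V} : (p :: (mid ++ [q])).getLast? = some q := by
  rw [← List.cons_append, List.getLast?_concat]

theorem isR_cons {S : List (V × List V)} {v p q u : V} {mid : List V} :
    IsR ((v, p :: (mid ++ [q])) :: S) u ↔ u = q ∨ IsR S u := by
  constructor
  · rintro ⟨x, hx, h⟩
    rcases List.mem_cons.1 hx with rfl | hx
    · left
      rw [getLast_aux] at h
      exact (Option.some.inj h).symm
    · exact Or.inr ⟨x, hx, h⟩
  · rintro (rfl | ⟨x, hx, h⟩)
    · exact ⟨_, List.mem_cons_self, getLast_aux⟩
    · exact ⟨x, List.mem_cons_of_mem _ hx, h⟩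

open Classical in
/-- number of elements with the property `A` -/
def cA (A : V → Prop) (T : List V) : ℕ := T.countP (fun u => decide (A u))

theorem cA_mono {A B : V → Prop} {T : List V} (h : ∀ u ∈ T, A u → B u) : cA A T ≤ cA B T := by
  classical
  rw [cA, cA]
  apply List.countP_mono_left
  intro u hu h1
  rw [decide_eq_true_iff] at h1 ⊢
  exact h u hu h1

theorem cA_cons {A : V → Prop} {T : List V} {v : V} (h : ¬ A v) : cA A (v :: T) = cA A T := by
  rw [cA, cA, List.countP_cons_of_neg]
  simpa using h

theorem cA_cons_le {A : V → Prop} {T : List V} {v : V} : cA A T ≤ cA A (v :: T) := by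
  rw [cA, cA, List.countP_cons]
  exact Nat.le_add_right _ _

theorem cA_cons_of {A : V → Prop} {T : List V} {v : V} (h : A v) :
    cA A (v :: T) = cA A T + 1 := by
  rw [cA, cA, List.countP_cons_of_pos]
  simpa using h

/-- at most one more element -/
theorem cA_add {A : V → Prop} {T : List V} {p : V} (hT : T.Nodup) :
    cA (fun u => u = p ∨ A u) T ≤ cA A T + 1 := by
  classical
  induction T with
  | nil => simp [cA]
  | cons x T ih =>
    rw [List.nodup_cons] at hT
    by_cases hx : x = p
    · subst hx
      have h1 : cA (fun u => u = x ∨ A u) T ≤ cA A T := by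
        apply cA_mono
        rintro u hu (rfl | h)
        · exact absurd hu hT.1
        · exact h
      rw [cA_cons_of (A := fun u => u = x ∨ A u) (Or.inl rfl)]
      have h2 := cA_cons_le (A := A) (T := T) (v := x)
      lia
    · have ih1 := ih hT.2
      by_cases hA : A x
      · rw [cA_cons_of (A := fun u => u = p ∨ A u) (Or.inr hA), cA_cons_of hA]
        lia
      · rw [cA_cons (A := fun u => u = p ∨ A u) (by
          rintro (h | h)
          · exact hx h
          · exact hA h), cA_cons hA]
        exact ih1

/-- strict growth -/
theorem cA_grow {A B : V → Prop} {T : List V} {p : V} (hp : p ∈ T) (hA : ¬ A p) (hB : B p)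
    (h : ∀ u ∈ T, A u → B u) : cA A T + 1 ≤ cA B T := by
  induction T with
  | nil => simp at hp
  | cons x T ih =>
    have hm : cA A T ≤ cA B T := cA_mono (fun u hu => h u (List.mem_cons_of_mem _ hu))
    rcases List.mem_cons.1 hp with rfl | hp
    · rw [cA_cons hA, cA_cons_of hB]
      lia
    · have ih1 := ih hp (fun u hu => h u (List.mem_cons_of_mem _ hu))
      by_cases hx : A x
      · rw [cA_cons_of hx, cA_cons_of (h x List.mem_cons_self hx)]
        lia
      · rw [cA_cons hx]
        exact ih1.trans cA_cons_le

open Classical in
/-- number of steps with a list of length two -/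
def n2 (S : List (V × List V)) : ℕ := (S.filter fun y => y.2.length = 2).length

theorem n2_two {S : List (V × List V)} {v : V} {l : List V} (h : l.length = 2) :
    n2 ((v, l) :: S) = n2 S + 1 := by
  rw [n2, n2, List.filter_cons_of_pos (by simpa using h), List.length_cons]

theorem n2_ne {S : List (V × List V)} {v : V} {l : List V} (h : l.length ≠ 2) :
    n2 ((v, l) :: S) = n2 S := by
  rw [n2, n2, List.filter_cons_of_neg (by simpa using h)]

/-- the property of consecutive elements of a contour -/
def E3 (a b : V) (S : List (V × List V)) (w w' : V) : Prop :=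
  (IsL S w ∨ w = a) ∨ (IsR S w' ∨ w' = b)

/-- the invariant -/
structure Inv (a b : V) (C : List V) (S : List (V × List V)) (D : ℕ) : Prop where
  i1 : S ≠ [] → cA (IsL S) (S.map Prod.fst) + cA (IsR S) (S.map Prod.fst) + 1 ≤ n2 S + D
  i2 : n2 S + D ≤ S.length
  i3 : D ≤ cA (IsL S) (S.map Prod.fst)
  i4 : D ≤ cA (fun u => IsR S u ∧ u ∉ C) (S.map Prod.fst)
  i5 : C.IsChain (E3 a b S)

theorem base_contour {a b : V} {C : List V} (h : RCan a b C []) : C = [a, b] := by
  cases h with
  | base h => rfl

theorem inv_exists (hCB : CbStmt) {a b : V} {C : List V} {S : List (V × List V)}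
    (h : RCan a b C S) : ∃ D, Inv a b C S D := by
  induction h with
  | base h =>
    refine ⟨0, fun h => absurd rfl h, ?_, Nat.zero_le _, Nat.zero_le _, ?_⟩
    · simp [n2]
    · rw [List.isChain_cons_cons]
      exact ⟨Or.inl (Or.inr rfl), List.IsChain.singleton _⟩
  | @step P Q mid p q v S h ha hb hv hs ih =>
    obtain ⟨D, hI⟩ := ih
    have hnew : RCan a b (P ++ p :: v :: q :: Q) ((v, p :: (mid ++ [q])) :: S) :=
      RCan.step h ha hb hv hs
    obtain ⟨hab, hnd, ⟨D0, hD0⟩, hC, hnS, hx⟩ := hCB h.can
    obtain ⟨-, hnd', ⟨D1, hD1⟩, -, -, hx'⟩ := hCB hnew.can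
    set T : List V := S.map Prod.fst with hT
    have hvm := (hx' _ List.mem_cons_self).2.2.1
    have hvp : v ≠ p := by
      rintro rfl
      exact hvm List.mem_cons_self
    have hvq : v ≠ q := by
      rintro rfl
      exact hvm (by simp)
    have hvmid : v ∉ mid := by
      intro h1
      exact hvm (by simp [h1])
    have hvL : ¬ IsL ((v, p :: (mid ++ [q])) :: S) v := by
      rw [isL_cons]
      rintro (h1 | ⟨x, h1, h2⟩)
      · exact hvp h1
      · rcases (hx x h1).2.2.2.2.2 v (List.mem_of_mem_head? h2) with h3 | h3 | ⟨y, h3, h4⟩
        · exact ha h3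
        · exact hb h3
        · exact hv y h3 h4
    have hvR : ¬ IsR ((v, p :: (mid ++ [q])) :: S) v := by
      rw [isR_cons]
      rintro (h1 | ⟨x, h1, h2⟩)
      · exact hvq h1
      · rcases (hx x h1).2.2.2.2.2 v (List.mem_of_getLast? h2) with h3 | h3 | ⟨y, h3, h4⟩
        · exact ha h3
        · exact hb h3
        · exact hv y h3 h4
    -- the elements a and b are not vertices of steps
    have haT : a ∉ T := by
      intro h1
      obtain ⟨x, h2, h3⟩ := List.mem_map.1 h1
      exact (hx x h2).1 h3
    have hbT : b ∉ T := by
      intro h1
      obtain ⟨x, h2, h3⟩ := List.mem_map.1 h1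
      exact (hx x h2).2.1 h3
    have hmemT : ∀ u ∈ P ++ p :: (mid ++ q :: Q), u ≠ a → u ≠ b → u ∈ T := by
      intro u hu h1 h2
      rcases hC u hu with h3 | h3 | ⟨x, h3, h4⟩
      · exact absurd h3 h1
      · exact absurd h3 h2
      · exact List.mem_map.2 ⟨x, h3, h4⟩
    -- numbers
    have eL : cA (IsL ((v, p :: (mid ++ [q])) :: S)) (((v, p :: (mid ++ [q])) :: S).map Prod.fst) =
        cA (fun u => u = p ∨ IsL S u) T := by
      rw [List.map_cons, cA_cons hvL]
      congr 1
      funext u
      exact propext isL_cons
    have eR : cA (IsR ((v, p :: (mid ++ [q])) :: S)) (((v, p :: (mid ++ [q])) :: S).map Prod.fst) =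
        cA (fun u => u = q ∨ IsR S u) T := by
      rw [List.map_cons, cA_cons hvR]
      congr 1
      funext u
      exact propext isR_cons
    have eK : cA (fun u => IsR ((v, p :: (mid ++ [q])) :: S) u ∧ u ∉ P ++ p :: v :: q :: Q)
        (((v, p :: (mid ++ [q])) :: S).map Prod.fst) =
        cA (fun u => (u = q ∨ IsR S u) ∧ u ∉ P ++ p :: v :: q :: Q) T := by
      rw [List.map_cons, cA_cons (by
        rintro ⟨-, h1⟩
        exact h1 (by simp))]
      congr 1
      funext u
      rw [isR_cons]
    have lL : cA (IsL S) T ≤ cA (fun u => u = p ∨ IsL S u) T := cA_mono (fun u _ h => Or.inr h)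
    have uL : cA (fun u => u = p ∨ IsL S u) T ≤ cA (IsL S) T + 1 := cA_add hnS
    have uR : cA (fun u => u = q ∨ IsR S u) T ≤ cA (IsR S) T + 1 := cA_add hnS
    have uL' : (IsL S p ∨ p = a) → cA (fun u => u = p ∨ IsL S u) T ≤ cA (IsL S) T := by
      intro h1
      apply cA_mono
      rintro u hu (rfl | h2)
      · rcases h1 with h1 | rfl
        · exact h1
        · exact absurd hu haT
      · exact h2
    have uR' : (IsR S q ∨ q = b) → cA (fun u => u = q ∨ IsR S u) T ≤ cA (IsR S) T := by
      intro h1
      apply cA_mono
      rintro u hu (rfl | h2)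
      · rcases h1 with h1 | rfl
        · exact h1
        · exact absurd hu hbT
      · exact h2
    have kmono : ∀ u ∈ T, (IsR S u ∧ u ∉ P ++ p :: (mid ++ q :: Q)) →
        ((u = q ∨ IsR S u) ∧ u ∉ P ++ p :: v :: q :: Q) := by
      rintro u hu ⟨h1, h2⟩
      refine ⟨Or.inr h1, ?_⟩
      intro h3
      simp only [List.mem_append, List.mem_cons, not_or] at h2 h3
      rcases h3 with h3 | h3 | h3 | h3 | h3
      · exact h2.1 h3
      · exact h2.2.1 h3
      · obtain ⟨x, h4, h5⟩ := List.mem_map.1 hu
        exact hv x h4 (h5.trans h3)
      · exact h2.2.2.2.1 h3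
      · exact h2.2.2.2.2 h3
    have lK := cA_mono kmono
    -- the chain
    have hchain : (P ++ p :: v :: q :: Q).IsChain (E3 a b ((v, p :: (mid ++ [q])) :: S)) := by
      have hmono : ∀ x y, E3 a b S x y → E3 a b ((v, p :: (mid ++ [q])) :: S) x y := by
        rintro x y ((h1 | h1) | (h1 | h1))
        · exact Or.inl (Or.inl (isL_cons.2 (Or.inr h1)))
        · exact Or.inl (Or.inr h1)
        · exact Or.inr (Or.inl (isR_cons.2 (Or.inr h1)))
        · exact Or.inr (Or.inr h1)
      have h0 := hI.i5
      have h1 : (P ++ [p]).IsChain (E3 a b S) := by
        have h2 : P ++ p :: (mid ++ q :: Q) = (P ++ [p]) ++ (mid ++ q :: Q) := by simp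
        rw [h2] at h0
        exact (List.isChain_append.1 h0).1
      have h3 : (q :: Q).IsChain (E3 a b S) := by
        have h2 : P ++ p :: (mid ++ q :: Q) = (P ++ p :: mid) ++ (q :: Q) := by simp
        rw [h2] at h0
        exact (List.isChain_append.1 h0).2.1
      rw [List.isChain_split, List.isChain_cons_cons, List.isChain_cons_cons]
      exact ⟨h1.imp hmono, Or.inl (Or.inl (isL_cons.2 (Or.inl rfl))),
        Or.inr (Or.inl (isR_cons.2 (Or.inl rfl))), h3.imp hmono⟩
    -- p is not b, the elements of mid are not a, b
    have hpb : ∀ m ∈ mid, m ≠ a ∧ m ≠ b := by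
      intro m hm
      constructor
      · rintro rfl
        -- m is not the first element
        cases P with
        | nil =>
          rw [List.nil_append] at hD0 hnd
          have h1 : p = m := by
            have := congrArg List.head? hD0
            simpa using this
          rw [List.nodup_cons] at hnd
          apply hnd.1
          rw [h1]
          exact List.mem_append_left _ hm
        | cons x P =>
          rw [List.cons_append] at hD0 hnd
          have h1 : x = m := by
            have := congrArg List.head? hD0
            simpa using this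
          rw [List.nodup_cons] at hnd
          apply hnd.1
          rw [h1]
          simp [hm]
      · rintro rfl
        have h1 : (P ++ p :: (mid ++ q :: Q)).getLast? = some m := by
          rw [hD0, ← List.cons_append, List.getLast?_concat]
        have h2 : P ++ p :: (mid ++ q :: Q) = (P ++ p :: mid) ++ (q :: Q) := by simp
        rw [h2] at h1 hnd
        have h3 : (q :: Q).getLast? = some m := by
          rw [List.getLast?_append_cons] at h1
          exact h1
        exact (List.disjoint_of_nodup_append hnd) (by simp [hm]) (List.mem_of_getLast? h3)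
    by_cases hS : S = []
    · -- the first step
      subst hS
      have h3 : P ++ p :: (mid ++ q :: Q) = [a, b] := base_contour h
      have h4 := congrArg List.length h3
      simp only [List.length_append, List.length_cons, List.length_nil] at h4
      have hm : mid = [] := List.length_eq_zero_iff.1 (by lia)
      have hD : D = 0 := by
        have := hI.i3
        simpa [cA] using this
      subst hm
      refine ⟨0, ?_, ?_, Nat.zero_le _, Nat.zero_le _, hchain⟩
      · intro _
        rw [eL, eR, n2_two (by simp)]
        simp [cA, hT, n2]
      · rw [n2_two (by simp)]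
        simp [n2]
    · have hi1 := hI.i1 hS
      have hi2 := hI.i2
      have hi3 := hI.i3
      have hi4 := hI.i4
      rw [← hT] at hi1 hi3 hi4
      by_cases hmid : mid = []
      · -- no covered vertices
        subst hmid
        have h5 : E3 a b S p q := by
          have h0 := hI.i5
          have h2 : P ++ p :: ([] ++ q :: Q) = P ++ (p :: q :: Q) := by simp
          rw [h2] at h0
          exact (List.isChain_cons_cons.1 (List.isChain_append.1 h0).2.1).1
        refine ⟨D, ?_, ?_, ?_, ?_, hchain⟩
        · intro _
          rw [eL, eR, n2_two (by simp)]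
          rcases h5 with h5 | h5
          · have := uL' h5
            lia
          · have := uR' h5
            lia
        · rw [n2_two (by simp), List.length_cons]
          lia
        · rw [eL]
          lia
        · rw [eK]
          lia
      · -- covered vertices
        have hqR : IsR S q := by
          obtain ⟨m, hm1⟩ : ∃ m, mid.getLast? = some m := ⟨_, List.getLast?_eq_some_getLast hmid⟩
          obtain ⟨y, hy, -, hy2⟩ := hs m hm1
          exact ⟨y, hy, hy2⟩
        have hr := uR' (Or.inl hqR)
        have hlen : (p :: (mid ++ [q])).length ≠ 2 := by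
          have : mid.length ≠ 0 := fun h => hmid (List.length_eq_zero_iff.1 h)
          simp only [List.length_cons, List.length_append, List.length_nil]
          lia
        by_cases hg : IsL S p ∨ p = a
        · have hl := uL' hg
          refine ⟨D, ?_, ?_, ?_, ?_, hchain⟩
          · intro _
            rw [eL, eR, n2_ne hlen]
            lia
          · rw [n2_ne hlen, List.length_cons]
            lia
          · rw [eL]
            lia
          · rw [eK]
            lia
        · rw [not_or] at hg
          obtain ⟨m, mid', rfl⟩ := List.exists_cons_of_ne_nil hmid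
          have hm := hpb m List.mem_cons_self
          have hmR : IsR S m := by
            have h0 := hI.i5
            have h5 := (List.isChain_append.1 h0).2.1
            rw [List.cons_append, List.isChain_cons_cons] at h5
            rcases h5.1 with (h6 | h6) | (h6 | h6)
            · exact absurd h6 hg.1
            · exact absurd h6 hg.2
            · exact h6
            · exact absurd h6 hm.2
          have hpT : p ∈ T := by
            apply hmemT p (by simp) hg.2
            rintro rfl
            have h1 : (P ++ p :: (m :: mid' ++ q :: Q)).getLast? = some p := by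
              rw [hD0, ← List.cons_append, List.getLast?_concat]
            have h2 : P ++ p :: (m :: mid' ++ q :: Q) = (P ++ p :: m :: mid') ++ (q :: Q) := by
              simp
            rw [h2] at h1 hnd
            have h3 : (q :: Q).getLast? = some p := by
              rw [List.getLast?_append_cons] at h1
              exact h1
            exact (List.disjoint_of_nodup_append hnd) (by simp) (List.mem_of_getLast? h3)
          have hmT : m ∈ T := hmemT m (by simp) hm.1 hm.2
          have gL : cA (IsL S) T + 1 ≤ cA (fun u => u = p ∨ IsL S u) T :=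
            cA_grow hpT hg.1 (Or.inl rfl) (fun u _ h => Or.inr h)
          have gK := cA_grow (B := fun u => (u = q ∨ IsR S u) ∧ u ∉ P ++ p :: v :: q :: Q) hmT
            (fun h => h.2 (by simp)) (by
              refine ⟨Or.inr hmR, ?_⟩
              intro h3
              have hvm' : m ≠ v := by
                rintro rfl
                exact hvmid List.mem_cons_self
              simp only [List.mem_append, List.mem_cons] at h3
              have hnd2 := List.nodup_append.1 hnd
              have hnd3 := hnd2.2.1
              rw [List.cons_append, List.nodup_cons, List.nodup_cons] at hnd3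
              rcases h3 with h3 | h3 | h3 | h3 | h3
              · exact hnd2.2.2 m h3 m (by simp) rfl
              · apply hnd3.1
                rw [h3]
                exact List.mem_cons_self
              · exact hvm' h3
              · apply hnd3.2.1
                rw [h3]
                simp
              · apply hnd3.2.1
                simp [h3]) kmono
          refine ⟨D + 1, ?_, ?_, ?_, ?_, hchain⟩
          · intro _
            rw [eL, eR, n2_ne hlen]
            lia
          · rw [n2_ne hlen, List.length_cons]
            lia
          · rw [eL]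
            lia
          · rw [eK]
            lia

theorem filter_len (A : V → Prop) (S : List (V × List V)) : open Classical in
    (S.filter fun y => A y.1).length = cA A (S.map Prod.fst) := by
  classical
  rw [cA, List.countP_map, ← List.countP_eq_length_filter]
  rfl

theorem c3a (h1 : CbStmt) : C3aStmt := by
  intro V a b C S h hS
  obtain ⟨D, hI⟩ := inv_exists h1 h
  refine ⟨D, ?_, hI.i2, ?_, ?_⟩
  · rw [filter_len, filter_len]
    exact hI.i1 hS
  · rw [filter_len]
    exact hI.i3
  · rw [filter_len]
    exact hI.i4.trans (cA_mono (fun u _ h => h.1))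

end Pool.Agent.SGK.H40
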